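import Pool.Agent.R728.SG.Main

set_option autoImplicit false
open Set MeasureTheory
open scoped Classical

namespace Pool.Agent.R728.SG

/-- every subset of `X × X`, `X` of cardinality at most `ℵ₁`, is generated by rectangles. -/
theorem rect_small (X : Set ℝ) (hX : Cardinal.mk X ≤ Cardinal.aleph 1) (E : Set (ℝ × ℝ))
    (hE : ∀ p ∈ E, p.1 ∈ X ∧ p.2 ∈ X) : MeasurableSet[rect ℝ ℝ] E := by
  have hc : Cardinal.mk X ≤ Cardinal.mk (Cardinal.aleph.{0} 1).ord.ToType := by
    rw [Cardinal.mk_ord_toType]; exact hX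
  obtain ⟨e⟩ := (Cardinal.le_def _ _).1 hc
  have henum : ∀ x : ℝ, ∃ φ : ℕ → ℝ, ∀ hx : x ∈ X, ∀ y (hy : y ∈ X),
      e ⟨y, hy⟩ ≤ e ⟨x, hx⟩ → ∃ n, φ n = y := by
    intro x
    by_cases hx : x ∈ X
    · have h1 : (Set.Iio (e ⟨x, hx⟩)).Countable := by
        rw [Cardinal.countable_iff_lt_aleph_one]
        exact Cardinal.mk_Iio_toType_ord_lt _
      have h2 : (Set.Iic (e ⟨x, hx⟩)).Countable := by
        rw [← Set.Iio_union_right]
        exact h1.union (Set.countable_singleton _)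
      have h3 : (e ⁻¹' (Set.Iic (e ⟨x, hx⟩))).Countable := h2.preimage e.injective
      have h4 : (Subtype.val '' (e ⁻¹' (Set.Iic (e ⟨x, hx⟩)))).Countable := h3.image _
      obtain ⟨φ, hφ⟩ := h4.exists_eq_range ⟨x, ⟨x, hx⟩, le_refl (e ⟨x, hx⟩), rfl⟩
      refine ⟨φ, fun _ y hy h => ?_⟩
      have : y ∈ Set.range φ := by
        rw [← hφ]; exact ⟨⟨y, hy⟩, h, rfl⟩
      exact this
    · exact ⟨fun _ => 0, fun h => absurd h hx⟩
  choose φ hφ using henum
  have h : E = (⋃ n : ℕ, ({p : ℝ × ℝ | φ p.1 n = p.2} ∩ ({x | (x, φ x n) ∈ E} ×ˢ univ))) ∪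
      (⋃ n : ℕ, ({p : ℝ × ℝ | p.1 = φ p.2 n} ∩ (univ ×ˢ {y | (φ y n, y) ∈ E}))) := by
    ext ⟨x, y⟩
    simp only [mem_union, mem_iUnion, mem_inter_iff, mem_setOf_eq, mem_prod, mem_univ, and_true,
      true_and]
    constructor
    · intro hxy
      obtain ⟨hx, hy⟩ := hE _ hxy
      rcases le_total (e ⟨y, hy⟩) (e ⟨x, hx⟩) with h | h
      · left
        obtain ⟨n, hn⟩ := hφ x hx y hy h
        exact ⟨n, hn, by rw [hn]; exact hxy⟩
      · right
        obtain ⟨n, hn⟩ := hφ y hy x hx h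
        exact ⟨n, hn.symm, by rw [hn]; exact hxy⟩
    · rintro (⟨n, h1, h2⟩ | ⟨n, h1, h2⟩)
      · rw [h1] at h2; exact h2
      · rw [← h1] at h2; exact h2
  rw [h]
  letI : MeasurableSpace (ℝ × ℝ) := rect ℝ ℝ
  refine MeasurableSet.union (MeasurableSet.iUnion fun n => ?_) (MeasurableSet.iUnion fun n => ?_)
  · exact MeasurableSet.inter (rect_eq (fun x => φ x n) (fun y => y)) (rect_prod _ _)
  · exact MeasurableSet.inter (rect_eq (fun x => x) (fun y => φ y n)) (rect_prod _ _)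

lemma mk_pow_le (X : Set ℝ) (hX : Cardinal.mk X ≤ Cardinal.aleph 1) (n : ℕ) :
    Cardinal.mk {t : Fin n → ℝ | ∀ j, t j ∈ X} ≤ Cardinal.aleph 1 := by
  have h1 : Cardinal.mk {t : Fin n → ℝ | ∀ j, t j ∈ X} ≤ Cardinal.mk (Fin n → X) := by
    refine Cardinal.mk_le_of_injective (f := fun t j => (⟨t.1 j, t.2 j⟩ : X)) ?_
    intro s t h
    ext j
    have := congrFun h j
    exact congrArg Subtype.val this
  refine h1.trans ?_
  rw [Cardinal.mk_pi, Cardinal.prod_const, Cardinal.lift_id, Cardinal.lift_id, Cardinal.mk_fin,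
    Cardinal.power_natCast]
  calc Cardinal.mk X ^ n ≤ (Cardinal.aleph 1) ^ n := pow_le_pow_left' hX n
    _ ≤ Cardinal.aleph 1 := Cardinal.power_nat_le (Cardinal.aleph0_le_aleph 1)

lemma cyl_small (X : Set ℝ) (hX : Cardinal.mk X ≤ Cardinal.aleph 1) (n : ℕ)
    (T : Set (Fin n → ℝ)) (hT : ∀ t ∈ T, ∀ j, t j ∈ X) : MeasurableSet[cyl n] T := by
  induction n with
  | zero =>
    rcases Set.eq_empty_or_nonempty T with h | ⟨x, hx⟩
    · rw [h]; exact @MeasurableSet.empty _ (cyl 0)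
    · have : T = Set.univ := by
        ext y
        simp only [mem_univ, iff_true]
        rwa [Subsingleton.elim y x]
      rw [this]; exact @MeasurableSet.univ _ (cyl 0)
  | succ n ih =>
    obtain ⟨ψ, hψ⟩ := exists_inj n
    let X' : Set ℝ := X ∪ ψ '' {t | ∀ j, t j ∈ X}
    have hX' : Cardinal.mk X' ≤ Cardinal.aleph 1 := by
      refine (Cardinal.mk_union_le _ _).trans ?_
      refine (add_le_add hX (Cardinal.mk_image_le.trans (mk_pow_le X hX n))).trans ?_
      rw [Cardinal.add_eq_self (Cardinal.aleph0_le_aleph 1)]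
    let F : (Fin (n + 1) → ℝ) → ℝ × ℝ := fun t => (t 0, ψ (fun i => t i.succ))
    have hF : Function.Injective F := by
      intro s t h
      have h1 : s 0 = t 0 := congrArg Prod.fst h
      have h2 : (fun i : Fin n => s i.succ) = fun i => t i.succ := hψ (congrArg Prod.snd h)
      funext i
      refine Fin.cases h1 (fun j => ?_) i
      exact congrFun h2 j
    have hE : MeasurableSet[rect ℝ ℝ] (F '' T) := by
      refine rect_small X' hX' _ ?_
      rintro _ ⟨t, ht, rfl⟩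
      exact ⟨Or.inl (hT t ht 0), Or.inr ⟨_, fun j => hT t ht j.succ, rfl⟩⟩
    -- `F` is measurable up to restricting the tails to `X`
    have hTF : T = F ⁻¹' (F '' T) := (Set.preimage_image_eq _ hF).symm
    -- the set of all tails in `X`
    have hm : ∀ R : Set (ℝ × ℝ), MeasurableSet[rect ℝ ℝ] R →
        MeasurableSet[cyl (n + 1)] ({t | ∀ j, t j ∈ X} ∩ F ⁻¹' R) := by
      have hXm : MeasurableSet[cyl (n + 1)] {t : Fin (n + 1) → ℝ | ∀ j, t j ∈ X} := by
        have : {t : Fin (n + 1) → ℝ | ∀ j, t j ∈ X} = ⋂ j, (fun t => t j) ⁻¹' X := by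
          ext t; simp
        rw [this]
        refine @MeasurableSet.iInter _ _ (cyl (n + 1)) _ _ (fun j => ?_)
        exact (@measurable_pi_apply (Fin (n + 1)) (fun _ => ℝ) (fun _ => ⊤) j) trivial
      have htail : @Measurable _ _ (cyl (n + 1)) (cyl n)
            (fun (t : Fin (n + 1) → ℝ) (i : Fin n) => t i.succ) := by
          refine @measurable_pi_lambda _ (Fin n) (fun _ => ℝ) (cyl (n + 1)) (fun _ => ⊤) _ ?_
          intro i
          exact @measurable_pi_apply (Fin (n + 1)) (fun _ => ℝ) (fun _ => ⊤) i.succ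
      let m : MeasurableSpace (ℝ × ℝ) :=
        { MeasurableSet' := fun R => MeasurableSet[cyl (n + 1)] ({t | ∀ j, t j ∈ X} ∩ F ⁻¹' R)
          measurableSet_empty := by
            rw [Set.preimage_empty, Set.inter_empty]; exact @MeasurableSet.empty _ (cyl (n + 1))
          measurableSet_compl := by
            intro R h
            have : {t | ∀ j, t j ∈ X} ∩ F ⁻¹' Rᶜ
                = {t | ∀ j, t j ∈ X} \ ({t | ∀ j, t j ∈ X} ∩ F ⁻¹' R) := by
              ext t; simp
            rw [this]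
            exact @MeasurableSet.diff _ (cyl (n + 1)) _ _ hXm h
          measurableSet_iUnion := by
            intro f h
            rw [Set.preimage_iUnion, Set.inter_iUnion]
            exact @MeasurableSet.iUnion _ _ (cyl (n + 1)) _ _ h }
      have hle : rect ℝ ℝ ≤ m := by
        refine sup_le ?_ ?_
        · rintro _ ⟨A, _, rfl⟩
          refine @MeasurableSet.inter _ (cyl (n + 1)) _ _ hXm ?_
          exact (@measurable_pi_apply (Fin (n + 1)) (fun _ => ℝ) (fun _ => ⊤) 0) trivial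
        · rintro _ ⟨A, _, rfl⟩
          change MeasurableSet[cyl (n + 1)] _
          have : {t : Fin (n + 1) → ℝ | ∀ j, t j ∈ X} ∩ F ⁻¹' (Prod.snd ⁻¹' A)
              = {t : Fin (n + 1) → ℝ | ∀ j, t j ∈ X} ∩ (fun (t : Fin (n + 1) → ℝ) (i : Fin n) =>
                t i.succ) ⁻¹' {u | (∀ j, u j ∈ X) ∧ ψ u ∈ A} := by
            ext t
            constructor
            · rintro ⟨h1, h2⟩
              exact ⟨h1, fun j => h1 j.succ, h2⟩
            · rintro ⟨h1, _, h2⟩
              exact ⟨h1, h2⟩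
          rw [this]
          refine @MeasurableSet.inter _ (cyl (n + 1)) _ _ hXm (htail (ih _ ?_))
          rintro u ⟨hu, _⟩
          exact hu
      exact fun R hR => hle _ hR
    have := hm _ hE
    rw [← hTF] at this
    have hsub : {t : Fin (n + 1) → ℝ | ∀ j, t j ∈ X} ∩ T = T := by
      ext t
      exact ⟨fun h => h.2, fun h => ⟨hT t h, h⟩⟩
    rwa [hsub] at this

lemma symm_V_small (Z : Set V) (hc : Cardinal.mk Z ≤ Cardinal.aleph 1)
    (hZ : ∀ z ∈ Z, -z ∈ Z) : MeasurableSet[grp V] Z := by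
  let X : Set ℝ := ⋃ z ∈ Z, (z.support : Set ℝ)
  have hX : Cardinal.mk X ≤ Cardinal.aleph 1 := by
    have h0 : X = ⋃ z : Z, (z.1.support : Set ℝ) := by
      simp only [X, iUnion_coe_set]
    rw [h0]
    refine (Cardinal.mk_iUnion_le_sum_mk).trans ?_
    refine (Cardinal.sum_le_mk_mul_iSup _).trans ?_
    calc Cardinal.mk Z * ⨆ z : Z, Cardinal.mk (z.1.support : Set ℝ)
        ≤ Cardinal.aleph 1 * Cardinal.aleph 1 := by
          refine mul_le_mul' hc (ciSup_le' (fun z => ?_))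
          exact ((Cardinal.mk_le_aleph0_iff.2
            (Finite.to_countable (α := (z.1.support : Set ℝ)))).trans
            (Cardinal.aleph0_le_aleph 1))
      _ = Cardinal.aleph 1 := Cardinal.mul_eq_self (Cardinal.aleph0_le_aleph 1)
  have h : Z = ⋃ n : ℕ, ⋃ p : (Fin n → ℚ) × (Fin (n + 1) → ℚ),
      ⋃ (_ : (∀ j, p.1 j ≠ 0) ∧ StrictMono p.2),
        ZT p.1 p.2 {t | vec p.1 t ∈ Z ∧ ∀ j, t j ∈ box p.2 j} := by
    ext x
    simp only [mem_iUnion]
    constructor
    · intro hx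
      obtain ⟨n, c, s, t, hc, hs, ht, hxt⟩ := exists_rep x
      refine ⟨n, (c, s), ⟨hc, hs⟩, t, ⟨?_, ht⟩, ht, Or.inl hxt⟩
      rw [← hxt]; exact hx
    · rintro ⟨n, ⟨c, s⟩, ⟨hc, hs⟩, t, ht, hb, hx⟩
      rcases hx with h | h
      · rw [h]; exact ht.1
      · rw [h]; exact hZ _ ht.1
  rw [h]
  letI : MeasurableSpace V := grp V
  refine MeasurableSet.iUnion (fun n => MeasurableSet.iUnion (fun p =>
    MeasurableSet.iUnion (fun hp => ?_)))
  refine ZT_meas hp.1 hp.2 (cyl_small X hX n _ ?_)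
  rintro t ⟨ht, hb⟩ j
  refine mem_iUnion₂.2 ⟨_, ht, ?_⟩
  rw [Finset.mem_coe, Finsupp.mem_support_iff, vec_apply hp.2 hb (hb j), if_pos rfl]
  exact hp.1 j

/-- Every symmetric set of reals of cardinality at most `ℵ₁` is generated by the subgroups. -/
theorem symm_small (Z : Set ℝ) (hc : Cardinal.mk Z ≤ Cardinal.aleph 1)
    (hZ : ∀ z ∈ Z, -z ∈ Z) : MeasurableSet[grp ℝ] Z := by
  obtain ⟨b⟩ := exists_basis
  let e : ℝ →+ V := b.repr.toLinearMap.toAddMonoidHom
  have hinj : Function.Injective e := b.repr.injective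
  have : Z = e ⁻¹' (e '' Z) := (Set.preimage_image_eq _ hinj).symm
  rw [this]
  refine grp_hom e (symm_V_small _ (Cardinal.mk_image_le.trans hc) ?_)
  rintro _ ⟨z, hz, rfl⟩
  exact ⟨-z, hZ z hz, map_neg e z⟩

end Pool.Agent.R728.SG
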