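import Pool.Agent.R728.SG.Rect

set_option autoImplicit false
open Set MeasureTheory
open scoped Classical

namespace Pool.Agent.R728.SG

/-- the `σ`-algebra on an additive group generated by all its subgroups -/
abbrev grp (V : Type) [AddGroup V] : MeasurableSpace V :=
  MeasurableSpace.generateFrom {S : Set V | ∃ G : AddSubgroup V, (G : Set V) = S}

lemma grp_sub {V : Type} [AddGroup V] (G : AddSubgroup V) : MeasurableSet[grp V] (G : Set V) :=
  MeasurableSpace.measurableSet_generateFrom ⟨G, rfl⟩

lemma grp_hom {V W : Type} [AddGroup V] [AddGroup W] (φ : V →+ W) :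
    @Measurable V W (grp V) (grp W) φ := by
  refine @measurable_generateFrom V W (grp V) _ _ ?_
  rintro _ ⟨G, rfl⟩
  exact grp_sub (G.comap φ)

abbrev V : Type := ℝ →₀ ℚ

/-- vectors supported in `P` -/
def suppSub (P : Set ℝ) : AddSubgroup V where
  carrier := {x | ∀ u, u ∉ P → x u = 0}
  zero_mem' := by intro u _; rfl
  add_mem' := by
    intro a b ha hb u hu
    rw [Finsupp.add_apply, ha u hu, hb u hu, add_zero]
  neg_mem' := by
    intro a ha u hu
    rw [Finsupp.neg_apply, ha u hu, neg_zero]

lemma mem_suppSub {P : Set ℝ} {x : V} : x ∈ suppSub P ↔ ∀ u, u ∉ P → x u = 0 := Iff.rfl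

noncomputable def vec {n : ℕ} (c : Fin n → ℚ) (t : Fin n → ℝ) : V :=
  ∑ j, Finsupp.single (t j) (c j)

def box {n : ℕ} (s : Fin (n + 1) → ℚ) (j : Fin n) : Set ℝ :=
  Ico (s j.castSucc : ℝ) (s j.succ)

lemma box_disj {n : ℕ} {s : Fin (n + 1) → ℚ} (hs : StrictMono s) {i j : Fin n} {u : ℝ}
    (hi : u ∈ box s i) (hj : u ∈ box s j) : i = j := by
  by_contra hne
  rcases lt_or_gt_of_ne hne with h | h
  · have h1 : i.succ ≤ j.castSucc := by
      rw [Fin.le_def]; simp only [Fin.val_succ, Fin.val_castSucc]; exact h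
    have h2 : s i.succ ≤ s j.castSucc := hs.monotone h1
    have h3 : (s i.succ : ℝ) ≤ s j.castSucc := by exact_mod_cast h2
    have h4 := hi.2
    have h5 := hj.1
    linarith
  · have h1 : j.succ ≤ i.castSucc := by
      rw [Fin.le_def]; simp only [Fin.val_succ, Fin.val_castSucc]; exact h
    have h2 : s j.succ ≤ s i.castSucc := hs.monotone h1
    have h3 : (s j.succ : ℝ) ≤ s i.castSucc := by exact_mod_cast h2
    have h4 := hj.2
    have h5 := hi.1
    linarith

section
variable {n : ℕ} {c : Fin n → ℚ} {s : Fin (n + 1) → ℚ} (hs : StrictMono s)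
include hs

lemma vec_apply {t : Fin n → ℝ} (ht : ∀ j, t j ∈ box s j) {i : Fin n} {u : ℝ}
    (hu : u ∈ box s i) : vec c t u = if t i = u then c i else 0 := by
  unfold vec
  rw [Finsupp.finsetSum_apply]
  rw [Finset.sum_eq_single i]
  · rw [Finsupp.single_apply]
  · intro j _ hj
    rw [Finsupp.single_apply, if_neg]
    intro h
    exact hj (box_disj hs (ht j) (h ▸ hu))
  · intro h; exact absurd (Finset.mem_univ i) h

omit hs in
lemma vec_apply_out {t : Fin n → ℝ} (ht : ∀ j, t j ∈ box s j) {u : ℝ}
    (hu : ∀ i, u ∉ box s i) : vec c t u = 0 := by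
  unfold vec
  rw [Finsupp.finsetSum_apply]
  refine Finset.sum_eq_zero ?_
  intro j _
  rw [Finsupp.single_apply, if_neg]
  intro h
  exact hu j (h ▸ ht j)

/-- the uniqueness of the representation -/
lemma vec_unique (hc : ∀ j, c j ≠ 0) {t t' : Fin n → ℝ} (ht : ∀ j, t j ∈ box s j)
    (ht' : ∀ j, t' j ∈ box s j) {x : V} (h : x = vec c t ∨ x = - vec c t)
    (h' : x = vec c t' ∨ x = - vec c t') : t = t' := by
  funext i
  have h1 : x (t i) ≠ 0 := by
    rcases h with h | h
    · rw [h, vec_apply hs ht (ht i), if_pos rfl]; exact hc i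
    · rw [h, Finsupp.neg_apply, vec_apply hs ht (ht i), if_pos rfl]; exact neg_ne_zero.2 (hc i)
  by_contra hne
  apply h1
  rcases h' with h' | h'
  · rw [h', vec_apply hs ht' (ht i), if_neg (fun h => hne h.symm)]
  · rw [h', Finsupp.neg_apply, vec_apply hs ht' (ht i), if_neg (fun h => hne h.symm), neg_zero]

end

/-- sum of the coordinates in the box `j` -/
noncomputable def sg {n : ℕ} (s : Fin (n + 1) → ℚ) (j : Fin n) : V →+ ℚ :=
  Finsupp.liftAddHom (fun u => if u ∈ box s j then AddMonoidHom.id ℚ else 0)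

lemma sg_single {n : ℕ} (s : Fin (n + 1) → ℚ) (j : Fin n) (u : ℝ) (q : ℚ) :
    sg s j (Finsupp.single u q) = if u ∈ box s j then q else 0 := by
  unfold sg
  rw [Finsupp.liftAddHom_apply_single]
  split_ifs <;> rfl

lemma sg_apply {n : ℕ} (s : Fin (n + 1) → ℚ) (j : Fin n) (x : V) :
    sg s j x = ∑ u ∈ x.support, if u ∈ box s j then x u else 0 := by
  conv_lhs => rw [← Finsupp.sum_single x]
  unfold Finsupp.sum
  rw [map_sum]
  exact Finset.sum_congr rfl (fun u _ => sg_single s j u (x u))

noncomputable def sgAll {n : ℕ} (s : Fin (n + 1) → ℚ) : V →+ (Fin n → ℚ) :=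
  Pi.addMonoidHom (fun j => sg s j)

lemma sgAll_vec {n : ℕ} {c : Fin n → ℚ} {s : Fin (n + 1) → ℚ} (hs : StrictMono s)
    {t : Fin n → ℝ} (ht : ∀ j, t j ∈ box s j) : sgAll s (vec c t) = c := by
  funext j
  change sg s j (vec c t) = c j
  unfold vec
  rw [map_sum, Finset.sum_eq_single j]
  · rw [sg_single, if_pos (ht j)]
  · intro i _ hi
    rw [sg_single, if_neg]
    intro h
    exact hi (box_disj hs (ht i) h)
  · intro h; exact absurd (Finset.mem_univ j) h

/-- the set of vectors `± vec c t`, `t ∈ T` in the boxes -/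
def ZT {n : ℕ} (c : Fin n → ℚ) (s : Fin (n + 1) → ℚ) (T : Set (Fin n → ℝ)) : Set V :=
  {x | ∃ t ∈ T, (∀ j, t j ∈ box s j) ∧ (x = vec c t ∨ x = - vec c t)}

lemma ZT_univ {n : ℕ} (hn : 0 < n) {c : Fin n → ℚ} (hc : ∀ j, c j ≠ 0)
    {s : Fin (n + 1) → ℚ} (hs : StrictMono s) :
    ZT c s Set.univ = ((suppSub (⋃ j, box s j) : Set V) ∩
      (⋂ j : Fin n, ⋂ r : ℚ, ((suppSub {u | u ∈ box s j → u < r} : Set V)
        ∪ (suppSub {u | u ∈ box s j → (r : ℝ) ≤ u} : Set V)))) ∩
      (((AddSubgroup.zmultiples c).comap (sgAll s) : Set V) \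
        ⋃ k : ℕ, ((AddSubgroup.zmultiples ((k + 2) • c)).comap (sgAll s) : Set V)) := by
  ext x
  constructor
  · rintro ⟨t, -, ht, hx⟩
    have hx0 : ∀ u, vec c t u = 0 → x u = 0 := by
      intro u hu
      rcases hx with h | h
      · rw [h, hu]
      · rw [h, Finsupp.neg_apply, hu, neg_zero]
    refine ⟨⟨?_, ?_⟩, ?_, ?_⟩
    · intro u hu
      refine hx0 u (vec_apply_out ht (fun i hi => hu (mem_iUnion.2 ⟨i, hi⟩)))
    · refine mem_iInter.2 (fun j => mem_iInter.2 (fun r => ?_))
      rcases lt_or_ge (t j) r with h | h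
      · left
        intro u hu
        simp only [mem_setOf_eq, Classical.not_imp, not_lt] at hu
        refine hx0 u ?_
        rw [vec_apply hs ht hu.1, if_neg]
        intro h'
        rw [h'] at h
        linarith [hu.2]
      · right
        intro u hu
        simp only [mem_setOf_eq, Classical.not_imp, not_le] at hu
        refine hx0 u ?_
        rw [vec_apply hs ht hu.1, if_neg]
        intro h'
        rw [h'] at h
        linarith [hu.2]
    · change sgAll s x ∈ AddSubgroup.zmultiples c
      rcases hx with h | h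
      · rw [h, sgAll_vec hs ht]; exact AddSubgroup.mem_zmultiples c
      · rw [h, map_neg, sgAll_vec hs ht]
        exact neg_mem (AddSubgroup.mem_zmultiples c)
    · intro hmem
      obtain ⟨k, hk⟩ := mem_iUnion.1 hmem
      have hk : sgAll s x ∈ AddSubgroup.zmultiples ((k + 2) • c) := hk
      obtain ⟨m, hm⟩ := AddSubgroup.mem_zmultiples_iff.1 hk
      have hj := congrFun hm ⟨0, hn⟩
      have hcc := hc ⟨0, hn⟩
      have h2 : sgAll s x ⟨0, hn⟩ = c ⟨0, hn⟩ ∨ sgAll s x ⟨0, hn⟩ = - c ⟨0, hn⟩ := by
        rcases hx with h | h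
        · left; rw [h, sgAll_vec hs ht]
        · right; rw [h, map_neg, sgAll_vec hs ht]; rfl
      have hj : (m : ℚ) * (((k + 2 : ℕ) : ℚ) * c ⟨0, hn⟩) = sgAll s x ⟨0, hn⟩ := by
        rw [← hj, Pi.smul_apply, Pi.smul_apply, zsmul_eq_mul, nsmul_eq_mul]
      have h3 : (m : ℚ) * ((k + 2 : ℕ) : ℚ) = 1 ∨ (m : ℚ) * ((k + 2 : ℕ) : ℚ) = -1 := by
        rcases h2 with h2 | h2
        · left
          rw [h2] at hj
          have : ((m : ℚ) * ((k + 2 : ℕ) : ℚ) - 1) * c ⟨0, hn⟩ = 0 := by
            linear_combination hj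
          rcases mul_eq_zero.1 this with h | h
          · linarith
          · exact absurd h hcc
        · right
          rw [h2] at hj
          have : ((m : ℚ) * ((k + 2 : ℕ) : ℚ) + 1) * c ⟨0, hn⟩ = 0 := by
            linear_combination hj
          rcases mul_eq_zero.1 this with h | h
          · linarith
          · exact absurd h hcc
      have h4 : m * ((k + 2 : ℕ) : ℤ) = 1 ∨ m * ((k + 2 : ℕ) : ℤ) = -1 := by
        rcases h3 with h | h
        · left; exact_mod_cast h
        · right; exact_mod_cast h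
      have h5 : ((k + 2 : ℕ) : ℤ) ∣ 1 := by
        rcases h4 with h | h
        · exact ⟨m, by linarith⟩
        · exact ⟨-m, by linarith⟩
      have h6 := Int.le_of_dvd (by norm_num) h5
      push_cast at h6
      have : (0 : ℤ) ≤ k := Int.natCast_nonneg k
      linarith
  · rintro ⟨⟨ha, hb⟩, hc1, hc2⟩
    have hc1 : sgAll s x ∈ AddSubgroup.zmultiples c := hc1
    obtain ⟨m, hm⟩ := AddSubgroup.mem_zmultiples_iff.1 hc1
    -- m = ± 1
    have hm1 : m = 1 ∨ m = -1 := by
      by_contra hcon
      push Not at hcon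
      apply hc2
      have hk : ∃ k : ℕ, ((k + 2 : ℕ) : ℤ) ∣ m := by
        rcases eq_or_ne m 0 with h0 | h0
        · exact ⟨0, by rw [h0]; exact dvd_zero _⟩
        · have h1 : 2 ≤ m.natAbs := by omega
          refine ⟨m.natAbs - 2, ?_⟩
          have : m.natAbs - 2 + 2 = m.natAbs := by omega
          rw [this]
          exact Int.natAbs_dvd.2 (dvd_refl m)
      obtain ⟨k, l, hl⟩ := hk
      refine mem_iUnion.2 ⟨k, ?_⟩
      change sgAll s x ∈ AddSubgroup.zmultiples ((k + 2) • c)
      refine AddSubgroup.mem_zmultiples_iff.2 ⟨l, ?_⟩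
      rw [← hm, hl]
      funext j
      rw [Pi.smul_apply, Pi.smul_apply, Pi.smul_apply, zsmul_eq_mul, nsmul_eq_mul, zsmul_eq_mul]
      push_cast
      ring
    -- uniqueness of the support point in each box
    have hu : ∀ j : Fin n, ∀ u v, u ∈ box s j → v ∈ box s j → x u ≠ 0 → x v ≠ 0 → u = v := by
      intro j
      have key : ∀ u v, u ∈ box s j → v ∈ box s j → x u ≠ 0 → x v ≠ 0 → ¬ u < v := by
        intro u v hu hv hxu hxv hlt
        obtain ⟨r, hr1, hr2⟩ := exists_rat_btwn hlt
        rcases mem_iInter.1 (mem_iInter.1 hb j) r with h | h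
        · have := h v (by simp only [mem_setOf_eq, Classical.not_imp, not_lt]; exact ⟨hv, hr2.le⟩)
          exact hxv this
        · have := h u (by simp only [mem_setOf_eq, Classical.not_imp, not_le]; exact ⟨hu, hr1⟩)
          exact hxu this
      intro u v hu hv hxu hxv
      exact le_antisymm (not_lt.1 (key v u hv hu hxv hxu)) (not_lt.1 (key u v hu hv hxu hxv))
    have hex : ∀ j : Fin n, ∃ u, u ∈ box s j ∧ x u ≠ 0 := by
      intro j
      by_contra hcon
      push Not at hcon
      have h1 : sg s j x = 0 := by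
        rw [sg_apply]
        refine Finset.sum_eq_zero ?_
        intro u _
        split_ifs with h
        · exact hcon u h
        · rfl
      have h2 := congrFun hm j
      have h3 : sgAll s x j = sg s j x := rfl
      rw [h3, h1] at h2
      simp only [Pi.smul_apply, zsmul_eq_mul] at h2
      rcases mul_eq_zero.1 h2 with h | h
      · have : m = 0 := by exact_mod_cast h
        omega
      · exact hc j h
    choose t ht htx using hex
    have hval : ∀ j, x (t j) = m * c j := by
      intro j
      have h2 := congrFun hm j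
      have h3 : sgAll s x j = sg s j x := rfl
      rw [h3, sg_apply, Finset.sum_eq_single (t j)] at h2
      · rw [if_pos (ht j)] at h2
        rw [← h2]; simp
      · intro u hu' hne
        split_ifs with h
        · by_contra hx0
          exact hne (hu j u (t j) h (ht j) hx0 (htx j))
        · rfl
      · intro h
        exact absurd (Finsupp.mem_support_iff.2 (htx j)) h
    have hxv : ∀ u, x u = m * vec c t u := by
      intro u
      by_cases hin : ∃ i, u ∈ box s i
      · obtain ⟨i, hi⟩ := hin
        rw [vec_apply hs ht hi]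
        split_ifs with h
        · rw [← h]; exact hval i
        · rw [mul_zero]
          by_contra hx0
          exact h (hu i (t i) u (ht i) hi (htx i) hx0)
      · push Not at hin
        rw [vec_apply_out ht hin, mul_zero]
        refine ha u ?_
        intro h
        obtain ⟨i, hi⟩ := mem_iUnion.1 h
        exact hin i hi
    refine ⟨t, trivial, ht, ?_⟩
    rcases hm1 with h | h
    · left
      ext u
      rw [hxv u, h]; simp
    · right
      ext u
      rw [hxv u, h]; simp

lemma ZT_univ_meas {n : ℕ} {c : Fin n → ℚ} (hc : ∀ j, c j ≠ 0)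
    {s : Fin (n + 1) → ℚ} (hs : StrictMono s) : MeasurableSet[grp V] (ZT c s Set.univ) := by
  rcases Nat.eq_zero_or_pos n with hn | hn
  · subst hn
    have : ZT c s Set.univ = ((⊥ : AddSubgroup V) : Set V) := by
      ext x
      simp only [ZT, vec, mem_univ, true_and, Finset.univ_eq_empty, Finset.sum_empty, neg_zero,
        or_self, mem_setOf_eq, AddSubgroup.coe_bot, mem_singleton_iff]
      constructor
      · rintro ⟨_, _, h⟩; exact h
      · intro h; exact ⟨fun j => j.elim0, fun j => j.elim0, h⟩
    rw [this]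
    exact grp_sub _
  · rw [ZT_univ hn hc hs]
    letI : MeasurableSpace V := grp V
    refine MeasurableSet.inter (MeasurableSet.inter (grp_sub _) ?_) ?_
    · refine MeasurableSet.iInter (fun j => MeasurableSet.iInter (fun r => ?_))
      exact (grp_sub _).union (grp_sub _)
    · exact (grp_sub _).diff (MeasurableSet.iUnion (fun k => grp_sub _))

/-- all the sets `Z_T` with `T` in the cylinder `σ`-algebra are in the subgroup `σ`-algebra. -/
lemma ZT_meas {n : ℕ} {c : Fin n → ℚ} (hc : ∀ j, c j ≠ 0)
    {s : Fin (n + 1) → ℚ} (hs : StrictMono s) {T : Set (Fin n → ℝ)}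
    (hT : MeasurableSet[cyl n] T) : MeasurableSet[grp V] (ZT c s T) := by
  -- the `σ`-algebra of good sets
  let m : MeasurableSpace (Fin n → ℝ) :=
    { MeasurableSet' := fun T => MeasurableSet[grp V] (ZT c s T)
      measurableSet_empty := by
        have : ZT c s ∅ = ∅ := by
          ext x; simp [ZT]
        rw [this]
        exact @MeasurableSet.empty _ (grp V)
      measurableSet_compl := by
        intro T h
        have : ZT c s Tᶜ = ZT c s Set.univ \ ZT c s T := by
          ext x
          constructor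
          · rintro ⟨t, ht, hb, hx⟩
            refine ⟨⟨t, trivial, hb, hx⟩, ?_⟩
            rintro ⟨t', ht', hb', hx'⟩
            exact ht (vec_unique hs hc hb hb' hx hx' ▸ ht')
          · rintro ⟨⟨t, -, hb, hx⟩, h2⟩
            exact ⟨t, fun h => h2 ⟨t, h, hb, hx⟩, hb, hx⟩
        rw [this]
        exact @MeasurableSet.diff _ (grp V) _ _ (ZT_univ_meas hc hs) h
      measurableSet_iUnion := by
        intro f h
        have : ZT c s (⋃ i, f i) = ⋃ i, ZT c s (f i) := by
          ext x
          simp only [ZT, mem_iUnion, mem_setOf_eq]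
          constructor
          · rintro ⟨t, ⟨i, hi⟩, hb, hx⟩
            exact ⟨i, t, hi, hb, hx⟩
          · rintro ⟨i, t, hi, hb, hx⟩
            exact ⟨t, ⟨i, hi⟩, hb, hx⟩
        rw [this]
        exact @MeasurableSet.iUnion _ _ (grp V) _ _ h }
  have hle : cyl n ≤ m := by
    refine iSup_le (fun i => ?_)
    rintro _ ⟨A, _, rfl⟩
    change MeasurableSet[grp V] (ZT c s _)
    have : ZT c s ((fun b : Fin n → ℝ => b i) ⁻¹' A)
        = ZT c s Set.univ ∩ (suppSub {u | u ∈ box s i → u ∈ A} : Set V) := by
      ext x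
      constructor
      · rintro ⟨t, ht, hb, hx⟩
        refine ⟨⟨t, trivial, hb, hx⟩, ?_⟩
        intro u hu
        simp only [mem_setOf_eq, Classical.not_imp] at hu
        have h0 : vec c t u = 0 := by
          rw [vec_apply hs hb hu.1, if_neg]
          intro h
          exact hu.2 (h ▸ ht)
        rcases hx with h | h
        · rw [h, h0]
        · rw [h, Finsupp.neg_apply, h0, neg_zero]
      · rintro ⟨⟨t, -, hb, hx⟩, h2⟩
        refine ⟨t, ?_, hb, hx⟩
        by_contra hcon
        have h3 := h2 (t i) (by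
          simp only [mem_setOf_eq, Classical.not_imp]; exact ⟨hb i, hcon⟩)
        rcases hx with h | h
        · rw [h, vec_apply hs hb (hb i), if_pos rfl] at h3
          exact hc i h3
        · rw [h, Finsupp.neg_apply, vec_apply hs hb (hb i), if_pos rfl] at h3
          exact hc i (neg_eq_zero.1 h3)
    rw [this]
    exact @MeasurableSet.inter _ (grp V) _ _ (ZT_univ_meas hc hs) (grp_sub _)
  exact hle _ hT

end Pool.Agent.R728.SG
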