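import Pool.Agent.R728.SG.Gen

set_option autoImplicit false
open Set MeasureTheory
open scoped Classical

namespace Pool.Agent.R728.SG

lemma exists_rat_between (A B : Finset ℝ) (h : ∀ a ∈ A, ∀ b ∈ B, a < b) :
    ∃ q : ℚ, (∀ a ∈ A, a < q) ∧ ∀ b ∈ B, (q : ℝ) < b := by
  obtain ⟨u, hu1, hu2⟩ := Finset.exists_between' A B h
  obtain ⟨v, hv1, hv2⟩ := Finset.exists_between' A {u} (by simpa using hu1)
  have hvu : v < u := hv2 u (Finset.mem_singleton_self u)
  obtain ⟨q, hq1, hq2⟩ := exists_rat_btwn hvu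
  exact ⟨q, fun a ha => (hv1 a ha).trans hq1, fun b hb => hq2.trans (hu2 b hb)⟩

/-- every vector is of the form `vec c t` with `t` in some boxes. -/
lemma exists_rep (x : V) : ∃ (n : ℕ) (c : Fin n → ℚ) (s : Fin (n + 1) → ℚ) (t : Fin n → ℝ),
    (∀ j, c j ≠ 0) ∧ StrictMono s ∧ (∀ j, t j ∈ box s j) ∧ x = vec c t := by
  let n := x.support.card
  let t : Fin n → ℝ := x.support.orderEmbOfFin rfl
  have ht : StrictMono t := (x.support.orderEmbOfFin rfl).strictMono
  have htm : ∀ j, t j ∈ x.support := fun j => Finset.orderEmbOfFin_mem _ _ _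
  have hs : ∀ i : Fin (n + 1), ∃ q : ℚ, (∀ j : Fin n, j.castSucc < i → t j < q) ∧
      ∀ j : Fin n, i ≤ j.castSucc → (q : ℝ) < t j := by
    intro i
    obtain ⟨q, hq1, hq2⟩ := exists_rat_between
      ((Finset.univ.filter (fun j : Fin n => j.castSucc < i)).image t)
      ((Finset.univ.filter (fun j : Fin n => i ≤ j.castSucc)).image t) (by
        intro a ha b hb
        simp only [Finset.mem_image, Finset.mem_filter, Finset.mem_univ, true_and] at ha hb
        obtain ⟨j, hj, rfl⟩ := ha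
        obtain ⟨k, hk, rfl⟩ := hb
        apply ht
        have := lt_of_lt_of_le hj hk
        exact Fin.castSucc_lt_castSucc_iff.1 this)
    refine ⟨q, fun j hj => hq1 _ ?_, fun j hj => hq2 _ ?_⟩
    · exact Finset.mem_image_of_mem _ (by simpa using hj)
    · exact Finset.mem_image_of_mem _ (by simpa using hj)
  choose s hs1 hs2 using hs
  refine ⟨n, fun j => x (t j), s, t, fun j => Finsupp.mem_support_iff.1 (htm j), ?_, ?_, ?_⟩
  · intro i i' h
    have hi : i.val < n := by
      have := i'.2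
      have h' : i.val < i'.val := h
      omega
    have h1 : i ≤ (⟨i.val, hi⟩ : Fin n).castSucc := le_refl _
    have h2 : (⟨i.val, hi⟩ : Fin n).castSucc < i' := h
    have := (hs2 i _ h1).trans (hs1 i' _ h2)
    exact_mod_cast this
  · intro j
    exact ⟨(hs2 j.castSucc j le_rfl).le, hs1 j.succ j (Fin.castSucc_lt_succ)⟩
  · conv_lhs => rw [← Finsupp.sum_single x]
    unfold Finsupp.sum vec
    symm
    refine Finset.sum_bij (fun j _ => t j) (fun j _ => htm j) ?_ ?_ ?_
    · intro a _ b _ h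
      exact ht.injective h
    · intro u hu
      have : u ∈ Set.range (x.support.orderEmbOfFin rfl) := by
        rw [Finset.range_orderEmbOfFin]; exact hu
      obtain ⟨j, hj⟩ := this
      exact ⟨j, Finset.mem_univ _, hj⟩
    · intro j _
      rfl

/-- If all subsets of the plane are generated by rectangles, all symmetric subsets of the
`ℚ`-vector space `ℝ →₀ ℚ` are generated by the subgroups. -/
lemma symm_V (hR : ∀ E : Set (ℝ × ℝ), MeasurableSet[rect ℝ ℝ] E) (Z : Set V)
    (hZ : ∀ z ∈ Z, -z ∈ Z) : MeasurableSet[grp V] Z := by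
  have h : Z = ⋃ n : ℕ, ⋃ p : (Fin n → ℚ) × (Fin (n + 1) → ℚ),
      ⋃ (_ : (∀ j, p.1 j ≠ 0) ∧ StrictMono p.2), ZT p.1 p.2 {t | vec p.1 t ∈ Z} := by
    ext x
    simp only [mem_iUnion]
    constructor
    · intro hx
      obtain ⟨n, c, s, t, hc, hs, ht, hxt⟩ := exists_rep x
      refine ⟨n, (c, s), ⟨hc, hs⟩, t, ?_, ht, Or.inl hxt⟩
      rw [mem_setOf_eq, ← hxt]; exact hx
    · rintro ⟨n, ⟨c, s⟩, ⟨hc, hs⟩, t, ht, hb, hx⟩
      rcases hx with h | h
      · rw [h]; exact ht
      · rw [h]; exact hZ _ ht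
  rw [h]
  letI : MeasurableSpace V := grp V
  refine MeasurableSet.iUnion (fun n => MeasurableSet.iUnion (fun p =>
    MeasurableSet.iUnion (fun hp => ?_)))
  exact ZT_meas hp.1 hp.2 (cyl_top hR n _)

/-- a basis of the reals over the rationals indexed by the reals -/
lemma exists_basis : Nonempty (Module.Basis ℝ ℚ ℝ) := by
  have b := Module.Basis.ofVectorSpace ℚ ℝ
  have h : Cardinal.mk (Module.Basis.ofVectorSpaceIndex ℚ ℝ) = Cardinal.mk ℝ := by
    rw [b.mk_eq_rank'', Real.rank_rat_real, Cardinal.mk_real]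
  obtain ⟨e⟩ := Cardinal.eq.1 h
  exact ⟨b.reindex e⟩

theorem symm_of_rect (hR : ∀ E : Set (ℝ × ℝ), MeasurableSet[rect ℝ ℝ] E) (Z : Set ℝ)
    (hZ : ∀ z ∈ Z, -z ∈ Z) : MeasurableSet[grp ℝ] Z := by
  obtain ⟨b⟩ := exists_basis
  let e : ℝ →+ V := b.repr.toLinearMap.toAddMonoidHom
  have hinj : Function.Injective e := b.repr.injective
  have : Z = e ⁻¹' (e '' Z) := (Set.preimage_image_eq _ hinj).symm
  rw [this]
  refine grp_hom e (symm_V hR _ ?_)
  rintro _ ⟨z, hz, rfl⟩
  exact ⟨-z, hZ z hz, map_neg e z⟩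

/-- the converse -/
theorem rect_of_symm (hS : ∀ Z : Set ℝ, (∀ z ∈ Z, -z ∈ Z) → MeasurableSet[grp ℝ] Z)
    (E : Set (ℝ × ℝ)) : MeasurableSet[rect ℝ ℝ] E := by
  obtain ⟨b⟩ := exists_basis
  have hcard : Cardinal.mk (ℝ ⊕ ℝ) = Cardinal.mk ℝ := by
    simp [Cardinal.mk_sum, Cardinal.mk_real]
  obtain ⟨e⟩ := Cardinal.eq.1 hcard
  let f : ℝ → ℝ := fun x => b (e (Sum.inl x))
  let g : ℝ → ℝ := fun y => b (e (Sum.inr y))
  let Φ : ℝ × ℝ → ℝ := fun p => f p.1 + g p.2
  -- coordinates
  have hrepr : ∀ p : ℝ × ℝ, b.repr (Φ p) = Finsupp.single (e (Sum.inl p.1)) 1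
      + Finsupp.single (e (Sum.inr p.2)) 1 := by
    intro p
    simp only [Φ, f, g, map_add, Module.Basis.repr_self]
  have hl : ∀ p : ℝ × ℝ, ∀ x : ℝ, b.repr (Φ p) (e (Sum.inl x)) = if p.1 = x then 1 else 0 := by
    intro p x
    rw [hrepr, Finsupp.add_apply, Finsupp.single_apply, Finsupp.single_apply]
    have h1 : e (Sum.inr p.2) ≠ e (Sum.inl x) := by
      intro h; exact absurd (e.injective h) (by simp)
    rw [if_neg h1, add_zero]
    by_cases h : p.1 = x
    · rw [if_pos h, if_pos (by rw [h])]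
    · rw [if_neg h, if_neg (by intro h'; exact h (Sum.inl_injective (e.injective h')))]
  have hr : ∀ p : ℝ × ℝ, ∀ y : ℝ, b.repr (Φ p) (e (Sum.inr y)) = if p.2 = y then 1 else 0 := by
    intro p y
    rw [hrepr, Finsupp.add_apply, Finsupp.single_apply, Finsupp.single_apply]
    have h1 : e (Sum.inl p.1) ≠ e (Sum.inr y) := by
      intro h; exact absurd (e.injective h) (by simp)
    rw [if_neg h1, zero_add]
    by_cases h : p.2 = y
    · rw [if_pos h, if_pos (by rw [h])]
    · rw [if_neg h, if_neg (by intro h'; exact h (Sum.inr_injective (e.injective h')))]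
  let Z : Set ℝ := {z | ∃ p ∈ E, z = Φ p ∨ z = - Φ p}
  have hZ : MeasurableSet[grp ℝ] Z := by
    refine hS Z ?_
    rintro z ⟨p, hp, h | h⟩
    · exact ⟨p, hp, Or.inr (by rw [h])⟩
    · exact ⟨p, hp, Or.inl (by rw [h, neg_neg])⟩
  have hE : E = Φ ⁻¹' Z := by
    ext p
    constructor
    · intro hp
      exact ⟨p, hp, Or.inl rfl⟩
    · rintro ⟨q, hq, h | h⟩
      · have h1 : p.1 = q.1 := by
          have h2 := hl p q.1
          rw [h, hl q q.1, if_pos rfl] at h2
          by_contra hne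
          rw [if_neg hne] at h2
          exact one_ne_zero h2
        have h3 : p.2 = q.2 := by
          have h2 := hr p q.2
          rw [h, hr q q.2, if_pos rfl] at h2
          by_contra hne
          rw [if_neg hne] at h2
          exact one_ne_zero h2
        rw [Prod.ext h1 h3]; exact hq
      · exfalso
        have h2 := hl p p.1
        rw [h, map_neg, Finsupp.neg_apply, hl q p.1, if_pos rfl] at h2
        split_ifs at h2 <;> norm_num at h2
  rw [hE]
  have hm : @Measurable (ℝ × ℝ) ℝ (rect ℝ ℝ) (grp ℝ) Φ := by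
    refine @measurable_generateFrom _ _ (rect ℝ ℝ) _ _ ?_
    rintro _ ⟨G, rfl⟩
    let f' : ℝ → ℝ := fun x => Quotient.out (QuotientAddGroup.mk (f x) : ℝ ⧸ G)
    let g' : ℝ → ℝ := fun y => Quotient.out (QuotientAddGroup.mk (- g y) : ℝ ⧸ G)
    have : Φ ⁻¹' (G : Set ℝ) = {p : ℝ × ℝ | f' p.1 = g' p.2} := by
      ext p
      simp only [mem_preimage, SetLike.mem_coe, mem_setOf_eq, f', g', Quotient.out_inj]
      rw [QuotientAddGroup.eq]
      have : -f p.1 + -g p.2 = - (Φ p) := by simp only [Φ]; ring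
      rw [this, neg_mem_iff]
    rw [this]
    exact rect_eq f' g'
  exact hm hZ

/-- Under the continuum hypothesis every subset of the plane is generated by rectangles. -/
theorem rect_of_CH (hCH : Cardinal.continuum.{0} = Cardinal.aleph 1) (E : Set (ℝ × ℝ)) :
    MeasurableSet[rect ℝ ℝ] E := by
  have hc : Cardinal.mk ℝ = Cardinal.mk (Cardinal.aleph.{0} 1).ord.ToType := by
    rw [Cardinal.mk_real, hCH, Cardinal.mk_ord_toType]
  obtain ⟨e⟩ := Cardinal.eq.1 hc
  have hcount : ∀ x : ℝ, {y : ℝ | e y ≤ e x}.Countable := by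
    intro x
    have h1 : (Set.Iio (e x)).Countable := by
      rw [Cardinal.countable_iff_lt_aleph_one]
      exact Cardinal.mk_Iio_toType_ord_lt (e x)
    have h2 : (Set.Iic (e x)).Countable := by
      rw [← Set.Iio_union_right]
      exact h1.union (Set.countable_singleton _)
    exact h2.preimage e.injective
  have henum : ∀ x : ℝ, ∃ φ : ℕ → ℝ, {y : ℝ | e y ≤ e x} = Set.range φ := by
    intro x
    exact (hcount x).exists_eq_range ⟨x, le_refl (e x)⟩
  choose φ hφ using henum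
  have h : E = (⋃ n : ℕ, ({p : ℝ × ℝ | φ p.1 n = p.2} ∩ ({x | (x, φ x n) ∈ E} ×ˢ univ))) ∪
      (⋃ n : ℕ, ({p : ℝ × ℝ | p.1 = φ p.2 n} ∩ (univ ×ˢ {y | (φ y n, y) ∈ E}))) := by
    ext ⟨x, y⟩
    simp only [mem_union, mem_iUnion, mem_inter_iff, mem_setOf_eq, mem_prod, mem_univ, and_true,
      true_and]
    constructor
    · intro hxy
      rcases le_total (e y) (e x) with h | h
      · left
        have : y ∈ Set.range (φ x) := by rw [← hφ x]; exact h
        obtain ⟨n, hn⟩ := this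
        exact ⟨n, hn, by rw [hn]; exact hxy⟩
      · right
        have : x ∈ Set.range (φ y) := by rw [← hφ y]; exact h
        obtain ⟨n, hn⟩ := this
        exact ⟨n, hn.symm, by rw [hn]; exact hxy⟩
    · rintro (⟨n, h1, h2⟩ | ⟨n, h1, h2⟩)
      · rw [h1] at h2; exact h2
      · rw [← h1] at h2; exact h2
  rw [h]
  letI : MeasurableSpace (ℝ × ℝ) := rect ℝ ℝ
  refine MeasurableSet.union (MeasurableSet.iUnion fun n => ?_) (MeasurableSet.iUnion fun n => ?_)
  · exact MeasurableSet.inter (rect_eq (fun x => φ x n) (fun y => y)) (rect_prod _ _)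
  · exact MeasurableSet.inter (rect_eq (fun x => x) (fun y => φ y n)) (rect_prod _ _)

end Pool.Agent.R728.SG
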