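import Mathlib

set_option autoImplicit false
open Set MeasureTheory

namespace Pool.Agent.R728.SG

/-- the `σ`-algebra on `X × Y` generated by all abstract rectangles `A ×ˢ B`. -/
abbrev rect (X Y : Type) : MeasurableSpace (X × Y) :=
  @Prod.instMeasurableSpace X Y ⊤ ⊤

lemma rect_prod {X Y : Type} (A : Set X) (B : Set Y) : MeasurableSet[rect X Y] (A ×ˢ B) :=
  @MeasurableSet.prod X Y ⊤ ⊤ A B trivial trivial

/-- the set where two real valued functions of the two coordinates agree is in the rectangle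
`σ`-algebra. -/
lemma rect_eq {X Y : Type} (f : X → ℝ) (g : Y → ℝ) :
    MeasurableSet[rect X Y] {p : X × Y | f p.1 = g p.2} := by
  have h : {p : X × Y | f p.1 = g p.2}
      = (⋃ q : ℚ, ({x : X | f x < q} ×ˢ {y : Y | (q : ℝ) < g y})
          ∪ ({x : X | (q : ℝ) < f x} ×ˢ {y : Y | g y < q}))ᶜ := by
    ext ⟨x, y⟩
    simp only [mem_setOf_eq, mem_compl_iff, mem_iUnion, mem_union, mem_prod, not_exists, not_or,
      not_and, not_lt]
    constructor
    · intro h q
      constructor
      · intro h1; rw [← h]; exact h1.le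
      · intro h1; rw [← h]; exact h1.le
    · intro h
      rcases lt_trichotomy (f x) (g y) with h1 | h1 | h1
      · obtain ⟨q, hq1, hq2⟩ := exists_rat_btwn h1
        exact absurd ((h q).1 hq1) (not_le.2 hq2)
      · exact h1
      · obtain ⟨q, hq1, hq2⟩ := exists_rat_btwn h1
        exact absurd ((h q).2 hq2) (not_le.2 hq1)
  rw [h]
  refine @MeasurableSet.compl _ _ (rect X Y) (@MeasurableSet.iUnion _ _ (rect X Y) _ _ ?_)
  intro q
  exact @MeasurableSet.union _ (rect X Y) _ _ (rect_prod _ _) (rect_prod _ _)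

/-- Under the rectangle hypothesis on the reals, every subset of `ℝ × Y` is a rectangle set when
`Y` injects into `ℝ`. -/
lemma rect_top {X Y : Type} (hR : ∀ E : Set (ℝ × ℝ), MeasurableSet[rect ℝ ℝ] E)
    (φ : X → ℝ) (hφ : Function.Injective φ) (ψ : Y → ℝ) (hψ : Function.Injective ψ)
    (E : Set (X × Y)) : MeasurableSet[rect X Y] E := by
  have h : E = (Prod.map φ ψ) ⁻¹' ((Prod.map φ ψ) '' E) := by
    rw [Set.preimage_image_eq]
    exact Function.Injective.prodMap hφ hψ
  rw [h]
  have hm : @Measurable (X × Y) (ℝ × ℝ) (rect X Y) (rect ℝ ℝ) (Prod.map φ ψ) := by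
    refine @Measurable.prodMk _ _ ℝ ℝ ⊤ ⊤ _ _ ?_ ?_
    · intro A _
      have : (fun p : X × Y => φ p.1) ⁻¹' A = (φ ⁻¹' A) ×ˢ (univ : Set Y) := by ext; simp
      rw [this]
      exact rect_prod _ _
    · intro A _
      have : (fun p : X × Y => ψ p.2) ⁻¹' A = (univ : Set X) ×ˢ (ψ ⁻¹' A) := by ext; simp
      rw [this]
      exact rect_prod _ _
  exact hm (hR _)

/-- the `σ`-algebra on `Fin n → ℝ` generated by the cylinders over arbitrary subsets of `ℝ` -/
abbrev cyl (n : ℕ) : MeasurableSpace (Fin n → ℝ) :=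
  @MeasurableSpace.pi (Fin n) (fun _ => ℝ) (fun _ => ⊤)

lemma exists_inj (n : ℕ) : ∃ φ : (Fin n → ℝ) → ℝ, Function.Injective φ := by
  have h : Cardinal.mk (Fin n → ℝ) ≤ Cardinal.mk ℝ := by
    simp only [Cardinal.mk_pi, Cardinal.mk_real, Cardinal.prod_const, Cardinal.lift_id,
      Cardinal.mk_fin]
    rw [Cardinal.power_natCast]
    exact Cardinal.power_nat_le Cardinal.aleph0_le_continuum
  obtain ⟨f⟩ := (Cardinal.le_def _ _).1 h
  exact ⟨f, f.injective⟩

lemma cyl_top (hR : ∀ E : Set (ℝ × ℝ), MeasurableSet[rect ℝ ℝ] E) (n : ℕ)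
    (T : Set (Fin n → ℝ)) : MeasurableSet[cyl n] T := by
  induction n with
  | zero =>
    rcases Set.eq_empty_or_nonempty T with h | ⟨x, hx⟩
    · rw [h]; exact @MeasurableSet.empty _ (cyl 0)
    · have : T = Set.univ := by
        ext y
        simp only [mem_univ, iff_true]
        rwa [Subsingleton.elim y x]
      rw [this]; exact @MeasurableSet.univ _ (cyl 0)
  | succ n ih =>
    obtain ⟨ψ, hψ⟩ := exists_inj n
    -- the map splitting off the first coordinate
    let F : (Fin (n + 1) → ℝ) → ℝ × (Fin n → ℝ) := fun t => (t 0, fun i => t i.succ)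
    have hF : Function.Injective F := by
      intro s t h
      have h1 : s 0 = t 0 := congrArg Prod.fst h
      have h2 : (fun i : Fin n => s i.succ) = fun i => t i.succ := congrArg Prod.snd h
      funext i
      refine Fin.cases h1 (fun j => ?_) i
      exact congrFun h2 j
    have hE := rect_top hR (fun x => x) (fun _ _ h => h) ψ hψ (F '' T)
    have hm : @Measurable _ _ (cyl (n + 1)) (rect ℝ (Fin n → ℝ)) F := by
      refine @Measurable.prodMk _ (cyl (n + 1)) ℝ (Fin n → ℝ) ⊤ ⊤ _ _ ?_ ?_
      · exact @measurable_pi_apply (Fin (n + 1)) (fun _ => ℝ) (fun _ => ⊤) 0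
      · intro A _
        have h1 : @Measurable _ _ (cyl (n + 1)) (cyl n)
            (fun (t : Fin (n + 1) → ℝ) (i : Fin n) => t i.succ) := by
          refine @measurable_pi_lambda _ (Fin n) (fun _ => ℝ) (cyl (n + 1)) (fun _ => ⊤) _ ?_
          intro i
          exact @measurable_pi_apply (Fin (n + 1)) (fun _ => ℝ) (fun _ => ⊤) i.succ
        exact h1 (ih A)
    have : T = F ⁻¹' (F '' T) := (Set.preimage_image_eq _ hF).symm
    rw [this]
    exact hm hE

end Pool.Agent.R728.SG
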